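import Mathlib
import Pool.Agent.Run7.h804.BH.Main

/-!
# Butson matrices of prime order with half of the rows of the Fourier matrix

Definitions (`Pool.Agent.Run7.h804.BH.Main`): `ex p n` is `exp (2 π i n / p)`; `IsExponent p H L`: all
entries of `H` are `H i j = exp (2 π i (L i j) / p)`; `IsFourier p H`: `H` is equivalent to the Fourier
matrix of order `p`, in the sense of the problem.

Proof. By the irreducibility of the cyclotomic polynomial, the differences of two rows of `L` are
permutations of `ℤ / p`. Hence `y` is a permutation, the `x i`, `i ∈ S`, are distinct, and any other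
row is, after subtracting `β`, a function of `y` whose slopes avoid all `x i`, `i ∈ S`. It has at most
`(p + 1) / 2` slopes and is affine by the theorem of Rédei and Megyesi, whose proof (Lovász and
Schrijver, Rónyai and Szőnyi; power sums of permutations) is included.
-/

set_option autoImplicit false

namespace Pool.Agent.Results.MP_e1cd9e_co.CollinearRows

open Pool.Agent.Run7.h804.BH

/-- Let `p` be a prime, `H ∈ BH(p, p)` and `L` the matrix of exponents of `H` (so `L i j` is in
`ℤ / p` and `H i j = exp (2 π i (L i j) / p)`). Suppose that for a set `S` of at least two and at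
least `(p - 1) / 2` rows there are functions `α, β, x, y` with `L i j = α i + β j + x i * y j` for the
rows `i ∈ S` (and all columns `j`). Then `H` is equivalent to the Fourier matrix of order `p`. -/
theorem result (p : ℕ) (hp : p.Prime) (H : Matrix (Fin p) (Fin p) ℂ)
    (hH : H * H.conjTranspose = (p : ℂ) • (1 : Matrix (Fin p) (Fin p) ℂ))
    (L : Fin p → Fin p → ZMod p) (hL : IsExponent p H L) (S : Finset (Fin p))
    (h2 : 2 ≤ S.card) (hS : p ≤ 2 * S.card + 1) (α β x y : Fin p → ZMod p)
    (h : ∀ i ∈ S, ∀ j, L i j = α i + β j + x i * y j) : IsFourier p H := by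
  haveI : Fact p.Prime := ⟨hp⟩
  have h4 := four_of_H H hH L hL
  obtain ⟨α', β', x', y', h'⟩ := many_rows L h4 S h2 hS α β x y h
  exact fourier_of_rank_one H L hL h4 α' β' x' y' h'

end Pool.Agent.Results.MP_e1cd9e_co.CollinearRows
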