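import Mathlib
import Pool.Agent.Run7.h804.BH.Main

/-!
# Butson matrices of prime order whose matrix of exponents has rank at most two

Definitions (`Pool.Agent.Run7.h804.BH.Main`): `ex p n` is `exp (2 π i n / p)`; `IsExponent p H L`: all
entries of `H` are `H i j = exp (2 π i (L i j) / p)`; `IsFourier p H`: `H` is equivalent to the Fourier
matrix of order `p`, in the sense of the problem.

Proof. By the irreducibility of the cyclotomic polynomial, the differences of two rows of `L` are
permutations of `ℤ / p`. After a change of coordinates the exponents are, up to a scalar,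
`s_i s'_j + t_i t'_j` with bijections `s`, `s'`; then `t = f(s)`, `t' = g(s')` for functions `f`, `g` such
that no slope of `f` is `-1 / (slope of g)`. So one of them has at most `(p + 1) / 2` slopes and
is affine by the theorem of Rédei and Megyesi, whose proof (Lovász and Schrijver, Rónyai and Szőnyi;
power sums of permutations) is included.
-/

set_option autoImplicit false

namespace Pool.Agent.Results.MP_e1cd9e_co.RankTwoExponents

open Pool.Agent.Run7.h804.BH

/-- Let `p` be a prime, `H ∈ BH(p, p)` and `L` the matrix of exponents of `H` (so `L i j` is in
`ℤ / p` and `H i j = exp (2 π i (L i j) / p)`). If `L i j = α i + β j + a i * b j + c i * d j` for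
some functions `α, β, a, b, c, d` with values in `ℤ / p`, then `H` is equivalent to the Fourier matrix
of order `p`. -/
theorem result (p : ℕ) (hp : p.Prime) (H : Matrix (Fin p) (Fin p) ℂ)
    (hH : H * H.conjTranspose = (p : ℂ) • (1 : Matrix (Fin p) (Fin p) ℂ))
    (L : Fin p → Fin p → ZMod p) (hL : IsExponent p H L)
    (α β a b c d : Fin p → ZMod p)
    (h : ∀ i j, L i j = α i + β j + (a i * b j + c i * d j)) : IsFourier p H := by
  haveI : Fact p.Prime := ⟨hp⟩
  have h4 := four_of_H H hH L hL
  obtain ⟨α', β', x, y, h'⟩ := rank_two L h4 α β a b c d h
  exact fourier_of_rank_one H L hL h4 α' β' x y h'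

end Pool.Agent.Results.MP_e1cd9e_co.RankTwoExponents
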